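import Mathlib

/-!
# Norms given by functions: basic facts, the associated normed space, Hahn-Banach
-/

namespace Pool.Agent.Helper92.Crit

open Filter Topology

/-- `N` is a norm on the complex vector space `E`. -/
structure IsSN {E : Type*} [AddCommGroup E] [Module ℂ E] (N : E → ℝ) : Prop where
  add : ∀ z w, N (z + w) ≤ N z + N w
  smul : ∀ (c : ℂ) z, N (c • z) = ‖c‖ * N z
  def0 : ∀ z, N z = 0 → z = 0

namespace IsSN

variable {E : Type*} [AddCommGroup E] [Module ℂ E] {N : E → ℝ}

lemma zero (h : IsSN N) : N 0 = 0 := by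
  have := h.smul 0 0
  simpa using this

lemma neg (h : IsSN N) (z : E) : N (-z) = N z := by
  have := h.smul (-1) z
  simpa using this

lemma nonneg (h : IsSN N) (z : E) : 0 ≤ N z := by
  have h1 := h.add z (-z)
  rw [add_neg_cancel, h.zero, h.neg] at h1
  linarith

lemma sub_le (h : IsSN N) (z w : E) : N z - N w ≤ N (z - w) := by
  have h1 := h.add (z - w) w
  rw [sub_add_cancel] at h1
  linarith

end IsSN

/-- A copy of `E` carrying no norm. -/
def Syn (E : Type*) : Type _ := E

instance (E : Type*) [h : AddCommGroup E] : AddCommGroup (Syn E) := h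

instance (E : Type*) [AddCommGroup E] [h : Module ℂ E] : Module ℂ (Syn E) := h

/-- The identity map from `E` to its copy. -/
def toSyn {E : Type*} (x : E) : Syn E := x

/-- The norm on `Syn E` given by `N`. -/
@[reducible] def synNorm {E : Type*} (N : E → ℝ) : Norm (Syn E) := ⟨N⟩

lemma core {E : Type*} [AddCommGroup E] [Module ℂ E] {N : E → ℝ} (h : IsSN N) :
    letI := synNorm N
    NormedSpace.Core ℂ (Syn E) :=
  letI := synNorm N
  { norm_nonneg := fun x => h.nonneg (E := E) x
    norm_smul := fun c x => h.smul (E := E) c x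
    norm_triangle := fun x y => h.add (E := E) x y
    norm_eq_zero_iff := fun x => ⟨fun hx => h.def0 (E := E) x hx, fun hx => by
      have : x = (0 : E) := hx
      show N x = 0
      rw [this]
      exact h.zero⟩ }

/-- The normed group `(E, N)`. -/
@[reducible] noncomputable def synGroup {E : Type*} [AddCommGroup E] [Module ℂ E] {N : E → ℝ}
    (h : IsSN N) : NormedAddCommGroup (Syn E) :=
  letI := synNorm N
  NormedAddCommGroup.ofCore (core h)

/-- The normed space `(E, N)`. -/
@[reducible] noncomputable def synSpace {E : Type*} [AddCommGroup E] [Module ℂ E] {N : E → ℝ}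
    (h : IsSN N) : letI := synGroup h; NormedSpace ℂ (Syn E) :=
  letI := synNorm N
  letI := synGroup h
  NormedSpace.ofCore (core h)

variable {E : Type*} [NormedAddCommGroup E] [NormedSpace ℂ E] [FiniteDimensional ℂ E]

/-- Hahn-Banach for a norm given as a function. -/
theorem exists_functional {N : E → ℝ} (h : IsSN N) (x : E) :
    ∃ l : E →L[ℂ] ℂ, (∀ w, ‖l w‖ ≤ N w) ∧ ‖l x‖ = N x := by
  let i1 := synGroup h
  let i2 := synSpace h
  obtain ⟨g, hg1, hg2⟩ := exists_dual_vector'' ℂ (toSyn x)
  let f : E →ₗ[ℂ] ℂ :=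
    { toFun := fun z => g (toSyn z)
      map_add' := fun a b => g.map_add (toSyn a) (toSyn b)
      map_smul' := fun c a => g.map_smul c (toSyn a) }
  refine ⟨LinearMap.toContinuousLinearMap f, fun w => ?_, ?_⟩
  · have h1 : ‖g (toSyn w)‖ ≤ ‖g‖ * ‖toSyn w‖ := g.le_opNorm _
    have h2 : ‖toSyn w‖ = N w := rfl
    rw [h2] at h1
    calc ‖(LinearMap.toContinuousLinearMap f) w‖ = ‖g (toSyn w)‖ := rfl
      _ ≤ ‖g‖ * N w := h1
      _ ≤ 1 * N w := mul_le_mul_of_nonneg_right hg1 (h.nonneg w)
      _ = N w := one_mul _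
  · have h2 : ‖toSyn x‖ = N x := rfl
    calc ‖(LinearMap.toContinuousLinearMap f) x‖ = ‖g (toSyn x)‖ := rfl
      _ = ‖((‖toSyn x‖ : ℝ) : ℂ)‖ := by rw [hg2]; rfl
      _ = N x := by rw [h2, Complex.norm_real, Real.norm_of_nonneg (h.nonneg x)]

end Pool.Agent.Helper92.Crit
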