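import Mathlib
import Pool.Agent.Helper92.Crit.Dual

/-!
# Smooth and strictly convex norms: `ℓ ^ (2 k)` norms of finitely many functionals
-/

namespace Pool.Agent.Helper92.Crit

open Filter Topology

variable {E : Type*} [NormedAddCommGroup E] [NormedSpace ℂ E]

/-- The norm `(∑ i, ‖m i z‖ ^ (2 k)) ^ (1 / (2 k))`. -/
noncomputable def QN {ι : Type*} [Fintype ι] (m : ι → (E →L[ℂ] ℂ)) (k : ℕ) (z : E) : ℝ :=
  (∑ i, ‖m i z‖ ^ (2 * k)) ^ (1 / ((2 * k : ℕ) : ℝ))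

section
variable {ι : Type*} [Fintype ι] (m : ι → (E →L[ℂ] ℂ)) {k : ℕ}

lemma QN_nonneg (z : E) : 0 ≤ QN m k z := by
  unfold QN
  positivity

lemma QN_pow (hk : 1 ≤ k) (z : E) : QN m k z ^ (2 * k) = ∑ i, ‖m i z‖ ^ (2 * k) := by
  unfold QN
  have h0 : (0 : ℝ) ≤ ∑ i, ‖m i z‖ ^ (2 * k) := by positivity
  rw [← Real.rpow_natCast, ← Real.rpow_mul h0]
  have : (1 / ((2 * k : ℕ) : ℝ)) * ((2 * k : ℕ) : ℝ) = 1 := by
    have : ((2 * k : ℕ) : ℝ) ≠ 0 := by positivity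
    field_simp
  rw [this, Real.rpow_one]

lemma QN_le {k : ℕ} (hk : 1 ≤ k) {z : E} {A : ℝ} (hA : 0 ≤ A)
    (h : ∑ i, ‖m i z‖ ^ (2 * k) ≤ A ^ (2 * k)) : QN m k z ≤ A := by
  rw [← QN_pow m hk] at h
  exact (pow_le_pow_iff_left₀ (QN_nonneg m z) hA (by omega)).mp h

lemma le_QN (hk : 1 ≤ k) (i : ι) (z : E) : ‖m i z‖ ≤ QN m k z := by
  have h : ‖m i z‖ ^ (2 * k) ≤ QN m k z ^ (2 * k) := by
    rw [QN_pow m hk]
    exact Finset.single_le_sum (f := fun i => ‖m i z‖ ^ (2 * k)) (fun j _ => by positivity)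
      (Finset.mem_univ i)
  exact (pow_le_pow_iff_left₀ (norm_nonneg _) (QN_nonneg m z) (by omega)).mp h

lemma QN_isSN (hk : 1 ≤ k) (hsep : ∀ z, (∀ i, m i z = 0) → z = 0) : IsSN (QN m k) where
  add z w := by
    have hp : (1 : ℝ) ≤ ((2 * k : ℕ) : ℝ) := by
      exact_mod_cast (show 1 ≤ 2 * k by omega)
    have h1 := Real.Lp_add_le_of_nonneg (Finset.univ : Finset ι) (f := fun i => ‖m i z‖)
      (g := fun i => ‖m i w‖) hp (fun i _ => norm_nonneg _) (fun i _ => norm_nonneg _)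
    simp only [Real.rpow_natCast] at h1
    refine le_trans ?_ h1
    unfold QN
    refine Real.rpow_le_rpow (by positivity) ?_ (by positivity)
    refine Finset.sum_le_sum fun i _ => ?_
    refine pow_le_pow_left₀ (norm_nonneg _) ?_ _
    rw [map_add]
    exact norm_add_le _ _
  smul c z := by
    have h1 : QN m k (c • z) ^ (2 * k) = (‖c‖ * QN m k z) ^ (2 * k) := by
      rw [mul_pow, QN_pow m hk, QN_pow m hk, Finset.mul_sum]
      refine Finset.sum_congr rfl fun i _ => ?_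
      rw [map_smul, norm_smul, mul_pow]
    exact (pow_left_inj₀ (QN_nonneg m _) (mul_nonneg (norm_nonneg _) (QN_nonneg m _))
      (by omega)).mp h1
  def0 z h := by
    refine hsep z fun i => ?_
    have h1 := le_QN m hk i z
    rw [h] at h1
    exact norm_le_zero_iff.mp h1

lemma two_point (α β : ℂ) (hk : 1 ≤ k) :
    2 * ‖α‖ ^ (2 * k) + 2 * ‖β‖ ^ (2 * k) ≤ ‖α + β‖ ^ (2 * k) + ‖α - β‖ ^ (2 * k) := by
  have hpar : ‖α + β‖ ^ 2 + ‖α - β‖ ^ 2 = 2 * (‖α‖ ^ 2 + ‖β‖ ^ 2) := by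
    have := parallelogram_law_with_norm ℂ α β
    nlinarith [this]
  have hx : ‖α + β‖ ^ 2 ∈ Set.Ici (0 : ℝ) := by simp
  have hy : ‖α - β‖ ^ 2 ∈ Set.Ici (0 : ℝ) := by simp
  have hab : (1 / 2 : ℝ) + 1 / 2 = 1 := by norm_num
  have h1 := (convexOn_pow (𝕜 := ℝ) k).2 hx hy (show (0 : ℝ) ≤ 1 / 2 by norm_num)
    (show (0 : ℝ) ≤ 1 / 2 by norm_num) hab
  simp only [smul_eq_mul] at h1
  have e : 1 / 2 * ‖α + β‖ ^ 2 + 1 / 2 * ‖α - β‖ ^ 2 = ‖α‖ ^ 2 + ‖β‖ ^ 2 := by linarith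
  rw [e] at h1
  have h2 := pow_add_pow_le (x := ‖α‖ ^ 2) (y := ‖β‖ ^ 2) (n := k) (by positivity) (by positivity)
    (by omega)
  simp only [← pow_mul] at h1 h2
  linarith

lemma QN_strict (hk : 1 ≤ k) (hsep : ∀ z, (∀ i, m i z = 0) → z = 0) {x v : E}
    (h1 : QN m k (x + v) ≤ QN m k x) (h2 : QN m k (x - v) ≤ QN m k x) : v = 0 := by
  have h1' := pow_le_pow_left₀ (QN_nonneg m _) h1 (2 * k)
  have h2' := pow_le_pow_left₀ (QN_nonneg m _) h2 (2 * k)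
  rw [QN_pow m hk, QN_pow m hk] at h1' h2'
  have h3 : ∑ i, (2 * ‖m i x‖ ^ (2 * k) + 2 * ‖m i v‖ ^ (2 * k))
      ≤ ∑ i, (‖m i (x + v)‖ ^ (2 * k) + ‖m i (x - v)‖ ^ (2 * k)) := by
    refine Finset.sum_le_sum fun i _ => ?_
    rw [map_add, map_sub]
    exact two_point _ _ hk
  rw [Finset.sum_add_distrib, Finset.sum_add_distrib, ← Finset.mul_sum, ← Finset.mul_sum] at h3
  have h4 : ∑ i, ‖m i v‖ ^ (2 * k) ≤ 0 := by linarith
  refine hsep v fun i => ?_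
  have h5 : ‖m i v‖ ^ (2 * k) ≤ ∑ i, ‖m i v‖ ^ (2 * k) :=
    Finset.single_le_sum (f := fun i => ‖m i v‖ ^ (2 * k)) (fun j _ => by positivity)
      (Finset.mem_univ i)
  have h6 : ‖m i v‖ ^ (2 * k) = 0 := le_antisymm (h5.trans h4) (by positivity)
  have h7 : ‖m i v‖ = 0 := by
    by_contra hne
    exact hne (pow_eq_zero_iff (by omega) |>.mp h6)
  exact norm_eq_zero.mp h7

lemma QN_smooth (hk : 1 ≤ k) (x y : E) : ∃ (u : ℝ → ℝ) (d : ℝ), HasDerivAt u d 0 ∧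
    u 0 = QN m k x ^ (2 * k) ∧ ∀ t : ℝ, QN m k (x + (t : ℂ) • y) ^ (2 * k) ≤ u t := by
  let u : ℝ → ℝ := fun t => ∑ i, (((m i x).re + t * (m i y).re) ^ 2
    + ((m i x).im + t * (m i y).im) ^ 2) ^ k
  have hu : ∀ t : ℝ, u t = ∑ i, ‖m i (x + (t : ℂ) • y)‖ ^ (2 * k) := by
    intro t
    refine Finset.sum_congr rfl fun i _ => ?_
    rw [pow_mul, ← Complex.normSq_eq_norm_sq, map_add, map_smul, Complex.normSq_apply]
    congr 1
    simp [Complex.add_re, Complex.add_im, Complex.mul_re, Complex.mul_im]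
    ring
  have hd : DifferentiableAt ℝ u 0 := by
    fun_prop
  refine ⟨u, deriv u 0, hd.hasDerivAt, ?_, fun t => ?_⟩
  · rw [QN_pow m hk, hu]
    simp
  · rw [QN_pow m hk, hu]

end

end Pool.Agent.Helper92.Crit
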