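import Mathlib

/-!
# Contractions for a norm that is polyhedral near one point of a chain

`N` is a norm, `a` a contraction, `x₁ = a x₀`, `x₂ = a x₁`, all of norm one. If `N` is differentiable at
`x₀`, a maximum of finitely many `‖m j ·‖` near `x₁`, and strictly convex near `x₂`, then `a ^ 2` has
rank at most one.
-/

namespace Pool.Agent.Helper92.Crit

open Filter Topology

variable {E : Type*} [NormedAddCommGroup E] [NormedSpace ℂ E]

/-- If a linear function `1 + t * α` is below `u` with `u 0 = 1` and `u` has derivative `d` at `0`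
then `α = d`; here for `p`-th powers. -/
lemma slope_eq {u : ℝ → ℝ} {d α : ℝ} {p : ℕ} (hu : HasDerivAt u d 0) (hu0 : u 0 = 1)
    (h : ∀ᶠ t : ℝ in 𝓝 0, (1 + t * α) ^ p ≤ u t) : (p : ℝ) * α = d := by
  have h1 : HasDerivAt (fun t : ℝ => (1 + t * α) ^ p) ((p : ℝ) * α) 0 := by
    have h2 : HasDerivAt (fun t : ℝ => 1 + t * α) α 0 := by
      simpa using ((hasDerivAt_id (0 : ℝ)).mul_const α).const_add 1
    have h3 := h2.fun_pow p
    simpa using h3
  have h4 : HasDerivAt (fun t : ℝ => u t - (1 + t * α) ^ p) (d - (p : ℝ) * α) 0 := hu.sub h1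
  have h5 : IsLocalMin (fun t : ℝ => u t - (1 + t * α) ^ p) 0 := by
    filter_upwards [h] with t ht
    simp only [zero_mul, add_zero, one_pow, hu0, sub_self]
    linarith
  have h6 := h5.hasDerivAt_eq_zero h4
  linarith

theorem rank_le_one {ι : Type*} [Fintype ι] (N : E → ℝ) (a : E →L[ℂ] E)
    (ha : ∀ z, N (a z) ≤ N z) (m : ι → (E →L[ℂ] ℂ)) (hm : ∀ j z, ‖m j z‖ ≤ N z) (x : E)
    (hx1 : N (a x) = 1)
    (p : ℕ) (hp : 1 ≤ p)
    (hsm : ∀ y : E, ∃ (u : ℝ → ℝ) (d : ℝ), HasDerivAt u d 0 ∧ u 0 = 1 ∧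
      ∀ᶠ t : ℝ in 𝓝 0, N (x + (t : ℂ) • y) ^ p ≤ u t)
    (hpo : ∀ᶠ z in 𝓝 (a x), ∃ j, N z = ‖m j z‖)
    (hco : ∀ᶠ v in 𝓝 (0 : E), N (a (a x) + v) ≤ 1 → N (a (a x) - v) ≤ 1 → v = 0)
    (u v : E) : ∃ α β : ℂ, (α ≠ 0 ∨ β ≠ 0) ∧ α • a (a u) = β • a (a v) := by
  classical
  set x1 : E := a x with hx1d
  have key : ∀ y : E, ∃ d : ℝ, ∀ j, ‖m j x1‖ = 1 →
      ((starRingEnd ℂ) (m j x1) * m j (a y)).re = d := by
    intro y
    obtain ⟨w, d, hw, hw0, hle⟩ := hsm y
    refine ⟨d / p, fun j hj => ?_⟩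
    have hp0 : (p : ℝ) ≠ 0 := by positivity
    have h1 : ∀ᶠ t : ℝ in 𝓝 0,
        (1 + t * ((starRingEnd ℂ) (m j x1) * m j (a y)).re) ^ p ≤ w t := by
      have hpos : ∀ᶠ t : ℝ in 𝓝 0, 0 ≤ 1 + t * ((starRingEnd ℂ) (m j x1) * m j (a y)).re := by
        have hc : Continuous fun t : ℝ => 1 + t * ((starRingEnd ℂ) (m j x1) * m j (a y)).re := by
          fun_prop
        have := hc.tendsto 0
        simp only [zero_mul, add_zero] at this
        filter_upwards [this.eventually (lt_mem_nhds (show (0 : ℝ) < 1 by norm_num))] with t ht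
        exact ht.le
      filter_upwards [hle, hpos] with t ht ht0
      refine le_trans ?_ ht
      refine pow_le_pow_left₀ ht0 ?_ p
      have h2 : N (a (x + (t : ℂ) • y)) ≤ N (x + (t : ℂ) • y) := ha _
      refine le_trans ?_ h2
      refine le_trans ?_ (hm j _)
      have h3 : m j (a (x + (t : ℂ) • y)) = m j x1 + (t : ℂ) * m j (a y) := by
        rw [map_add, map_smul, map_add, map_smul, smul_eq_mul]
      rw [h3]
      have h4 : ‖(starRingEnd ℂ) (m j x1) * (m j x1 + (t : ℂ) * m j (a y))‖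
          = ‖m j x1 + (t : ℂ) * m j (a y)‖ := by
        rw [norm_mul, Complex.norm_conj, hj, one_mul]
      rw [← h4]
      have h5 : (starRingEnd ℂ) (m j x1) * (m j x1 + (t : ℂ) * m j (a y))
          = 1 + (t : ℂ) * ((starRingEnd ℂ) (m j x1) * m j (a y)) := by
        have h6 : (starRingEnd ℂ) (m j x1) * m j x1 = 1 := by
          rw [mul_comm, Complex.mul_conj, Complex.normSq_eq_norm_sq, hj]
          simp
        linear_combination h6
      rw [h5]
      refine le_trans (le_of_eq ?_) (Complex.re_le_norm _)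
      simp [Complex.add_re, Complex.mul_re]
    have h2 := slope_eq hw hw0 h1
    rw [eq_div_iff hp0, mul_comm]
    exact h2
  -- equality of the complex values
  have key2 : ∀ (i j : ι), ‖m i x1‖ = 1 → ‖m j x1‖ = 1 → ∀ y : E,
      (starRingEnd ℂ) (m i x1) * m i (a y) = (starRingEnd ℂ) (m j x1) * m j (a y) := by
    intro i j hi hj y
    apply Complex.ext
    · obtain ⟨d, hd⟩ := key y
      rw [hd i hi, hd j hj]
    · obtain ⟨d, hd⟩ := key (Complex.I • y)
      have h1 := hd i hi
      have h2 := hd j hj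
      simp only [map_smul, smul_eq_mul] at h1 h2
      have h3 : ∀ c w : ℂ, (c * (Complex.I * w)).re = -(c * w).im := by
        intro c w
        simp [Complex.mul_re, Complex.mul_im]
        ring
      rw [h3] at h1 h2
      linarith
  obtain ⟨j0, hj0⟩ : ∃ j, ‖m j x1‖ = 1 := by
    obtain ⟨j, hj⟩ := hpo.self_of_nhds
    exact ⟨j, by rw [← hj, hx1]⟩
  -- vectors of the image killed by the common functional are killed by `a`
  have kill : ∀ y : E, m j0 (a y) = 0 → a (a y) = 0 := by
    intro y hy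
    have hall : ∀ j, ‖m j x1‖ = 1 → m j (a y) = 0 := by
      intro j hj
      have h1 := key2 j0 j hj0 hj y
      rw [hy, mul_zero] at h1
      have h2 : (starRingEnd ℂ) (m j x1) ≠ 0 := by
        intro h
        have : ‖(starRingEnd ℂ) (m j x1)‖ = 0 := by rw [h, norm_zero]
        rw [Complex.norm_conj, hj] at this
        exact one_ne_zero this
      exact (mul_eq_zero.mp h1.symm).resolve_left h2
    -- near `x1` in direction `a y` the norm is at most one
    have hflat : ∀ᶠ t : ℝ in 𝓝 0, N (x1 + (t : ℂ) • a y) ≤ 1 := by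
      have hc : Tendsto (fun t : ℝ => x1 + (t : ℂ) • a y) (𝓝 0) (𝓝 x1) := by
        have h : Continuous fun t : ℝ => x1 + (t : ℂ) • a y := by fun_prop
        simpa using h.tendsto 0
      have hin : ∀ j, ∀ᶠ t : ℝ in 𝓝 0, ‖m j (x1 + (t : ℂ) • a y)‖ ≤ 1 := by
        intro j
        have hle1 : ‖m j x1‖ ≤ 1 := by rw [← hx1]; exact hm j _
        rcases hle1.lt_or_eq with h | h
        · have h2 : Tendsto (fun t : ℝ => ‖m j (x1 + (t : ℂ) • a y)‖) (𝓝 0) (𝓝 ‖m j x1‖) :=
            (((m j).continuous.norm).tendsto x1).comp hc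
          filter_upwards [h2.eventually (gt_mem_nhds h)] with t ht
          exact ht.le
        · refine Eventually.of_forall fun t => ?_
          rw [map_add, map_smul, hall j h, smul_zero, add_zero, h]
      filter_upwards [hc.eventually hpo, eventually_all.mpr hin] with t ht hall'
      obtain ⟨j, hj⟩ := ht
      rw [hj]
      exact hall' j
    by_contra hne
    have hc2 : Tendsto (fun t : ℝ => (t : ℂ) • a (a y)) (𝓝 0) (𝓝 0) := by
      have h : Continuous fun t : ℝ => (t : ℂ) • a (a y) := by fun_prop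
      simpa using h.tendsto 0
    have hneg : Tendsto (fun t : ℝ => -t) (𝓝 0) (𝓝 0) := by
      simpa using (continuous_neg.tendsto (0 : ℝ))
    have hev : ∀ᶠ t : ℝ in 𝓝 0, (t : ℂ) • a (a y) = 0 := by
      filter_upwards [hc2.eventually hco, hflat, hneg.eventually hflat] with t h1 h2 h3
      apply h1
      · refine le_trans ?_ h2
        have := ha (x1 + (t : ℂ) • a y)
        rwa [map_add, map_smul] at this
      · refine le_trans ?_ h3
        have := ha (x1 + ((-t : ℝ) : ℂ) • a y)
        rw [map_add, map_smul] at this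
        have e : a (a x) - (t : ℂ) • a (a y) = a x1 + ((-t : ℝ) : ℂ) • a (a y) := by
          push_cast
          rw [neg_smul, sub_eq_add_neg]
        rw [e]
        exact this
    rw [Metric.eventually_nhds_iff] at hev
    obtain ⟨ε, hε, h⟩ := hev
    have h1 := h (y := ε / 2) (by rw [Real.dist_eq, sub_zero, abs_of_pos (by positivity)]; linarith)
    rcases smul_eq_zero.mp h1 with h2 | h2
    · have : (ε / 2 : ℝ) = 0 := by exact_mod_cast h2
      linarith
    · exact hne h2
  by_cases hu : m j0 (a u) = 0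
  · exact ⟨1, 0, Or.inl one_ne_zero, by rw [kill u hu, smul_zero, zero_smul]⟩
  · refine ⟨m j0 (a v), m j0 (a u), Or.inr hu, ?_⟩
    have h1 : m j0 (a ((m j0 (a v)) • u - (m j0 (a u)) • v)) = 0 := by
      rw [map_sub, map_smul, map_smul, map_sub, map_smul, map_smul, smul_eq_mul, smul_eq_mul]
      ring
    have h2 := kill _ h1
    rw [map_sub, map_smul, map_smul, map_sub, map_smul, map_smul, sub_eq_zero] at h2
    exact h2

end Pool.Agent.Helper92.Crit
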