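import Mathlib
import Pool.Agent.Helper92.Crit.Dual
import Pool.Agent.Helper92.Crit.Smooth
import Pool.Agent.Helper92.Crit.Special

/-!
# Approximation of norms
-/

namespace Pool.Agent.Helper92.Crit

open Filter Topology

section General

variable {E : Type*} [NormedAddCommGroup E] [NormedSpace ℂ E]

lemma IsSN.lip {N : E → ℝ} (h : IsSN N) {C : ℝ} (hup : ∀ z, N z ≤ C * ‖z‖) (z w : E) :
    |N z - N w| ≤ C * ‖z - w‖ := by
  rw [abs_le]
  constructor
  · have h1 := h.sub_le w z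
    have h2 := hup (w - z)
    rw [norm_sub_rev] at h2
    linarith
  · have h1 := h.sub_le z w
    have h2 := hup (z - w)
    linarith

lemma IsSN.continuous {N : E → ℝ} (h : IsSN N) {C : ℝ} (hup : ∀ z, N z ≤ C * ‖z‖) :
    Continuous N := by
  rw [Metric.continuous_iff]
  intro b ε hε
  refine ⟨ε / (|C| + 1), by positivity, fun a ha => ?_⟩
  rw [Real.dist_eq]
  rw [dist_eq_norm] at ha
  have h1 := h.lip hup a b
  have h2 : C * ‖a - b‖ ≤ (|C| + 1) * ‖a - b‖ := by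
    refine mul_le_mul_of_nonneg_right ?_ (norm_nonneg _)
    linarith [le_abs_self C]
  have h3 : (|C| + 1) * ‖a - b‖ < ε := by
    rw [lt_div_iff₀ (by positivity)] at ha
    linarith
  linarith

lemma IsSN.normalize {N : E → ℝ} (h : IsSN N) (z : E) (hz : z ≠ 0) :
    ∃ w : E, ‖w‖ = 1 ∧ z = (‖z‖ : ℂ) • w ∧ N z = ‖z‖ * N w := by
  have hz' : (‖z‖ : ℝ) ≠ 0 := norm_ne_zero_iff.mpr hz
  have e : z = (‖z‖ : ℂ) • ((‖z‖ : ℂ)⁻¹ • z) := by
    rw [smul_smul, mul_inv_cancel₀ (by exact_mod_cast hz'), one_smul]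
  refine ⟨(‖z‖ : ℂ)⁻¹ • z, ?_, e, ?_⟩
  · rw [norm_smul, norm_inv, Complex.norm_real, norm_norm, inv_mul_cancel₀ hz']
  · conv_lhs => rw [e]
    rw [h.smul, Complex.norm_real, norm_norm]

variable [FiniteDimensional ℂ E]

theorem approx_smooth {N : E → ℝ} (h : IsSN N) {C : ℝ} (hlo : ∀ z, ‖z‖ ≤ N z)
    (hup : ∀ z, N z ≤ C * ‖z‖) {δ : ℝ} (hδ : 0 < δ) (hδ1 : δ < 1) :
    ∃ (t : Finset E) (m : t → (E →L[ℂ] ℂ)) (k : ℕ), 1 ≤ k ∧ (∀ z, (∀ i, m i z = 0) → z = 0) ∧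
      (∀ z, N z - δ * ‖z‖ ≤ QN m k z) ∧ (∀ z, QN m k z ≤ N z + δ * ‖z‖) := by
  classical
  have : ProperSpace E := FiniteDimensional.proper ℂ E
  choose l hl1 hl2 using fun x : E => exists_functional h x
  have hNc := h.continuous hup
  obtain ⟨t, -, ht⟩ := (isCompact_sphere (0 : E) 1).elim_nhds_subcover
    (fun x => {w | N w - δ < ‖l x w‖}) (fun x _ => by
      refine IsOpen.mem_nhds (isOpen_lt (by fun_prop) (by fun_prop)) ?_
      show N x - δ < ‖l x x‖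
      rw [hl2]
      linarith)
  let m : t → (E →L[ℂ] ℂ) := fun i => l i
  have hm1 : ∀ i w, ‖m i w‖ ≤ N w := fun i w => hl1 _ w
  have hm2 : ∀ w, ‖w‖ = 1 → ∃ i, N w - δ < ‖m i w‖ := by
    intro w hw
    have h1 := ht (show w ∈ Metric.sphere (0 : E) 1 by simpa using hw)
    simp only [Set.mem_iUnion] at h1
    obtain ⟨i, hi, h2⟩ := h1
    exact ⟨⟨i, hi⟩, h2⟩
  have hC1 : 0 < |C| + 1 := by positivity
  obtain ⟨k0, hk0⟩ := pow_unbounded_of_one_lt (t.card : ℝ)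
    (show (1 : ℝ) < 1 + δ / (|C| + 1) by linarith [div_pos hδ hC1])
  set k := max k0 1 with hkd
  have hk : 1 ≤ k := le_max_right _ _
  have hcard : (t.card : ℝ) ≤ (1 + δ / (|C| + 1)) ^ (2 * k) := by
    refine hk0.le.trans (pow_le_pow_right₀ ?_ ?_)
    · linarith [div_pos hδ hC1]
    · have : k0 ≤ k := le_max_left _ _
      omega
  have hsep : ∀ z, (∀ i, m i z = 0) → z = 0 := by
    intro z hz
    by_contra hne
    obtain ⟨w, hw, hzw, -⟩ := h.normalize z hne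
    obtain ⟨i, hi⟩ := hm2 w hw
    have h1 : m i w = 0 := by
      have := hz i
      rw [hzw, map_smul, smul_eq_mul] at this
      refine (mul_eq_zero.mp this).resolve_left ?_
      exact_mod_cast norm_ne_zero_iff.mpr hne
    rw [h1, norm_zero] at hi
    have := hlo w
    rw [hw] at this
    linarith
  have hQ := QN_isSN m hk hsep
  refine ⟨t, m, k, hk, hsep, fun z => ?_, fun z => ?_⟩
  · by_cases hz : z = 0
    · rw [hz, h.zero, norm_zero]
      simpa using QN_nonneg m (0 : E)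
    · obtain ⟨w, hw, hzw, hNz⟩ := h.normalize z hz
      obtain ⟨i, hi⟩ := hm2 w hw
      have h1 : QN m k z = ‖z‖ * QN m k w := by
        conv_lhs => rw [hzw]
        rw [hQ.smul, Complex.norm_real, norm_norm]
      rw [h1, hNz]
      have h2 := le_QN m hk i w
      have h3 : N w - δ ≤ QN m k w := hi.le.trans h2
      nlinarith [norm_nonneg z]
  · have hN0 := h.nonneg z
    have h1 : QN m k z ≤ (1 + δ / (|C| + 1)) * N z := by
      refine QN_le m hk (by positivity) ?_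
      have h2 : ∑ i, ‖m i z‖ ^ (2 * k) ≤ ∑ _i : t, N z ^ (2 * k) :=
        Finset.sum_le_sum fun i _ => pow_le_pow_left₀ (norm_nonneg _) (hm1 i z) _
      rw [Finset.sum_const, Finset.card_univ, Fintype.card_coe, nsmul_eq_mul] at h2
      rw [mul_pow]
      exact h2.trans (mul_le_mul_of_nonneg_right hcard (by positivity))
    refine h1.trans ?_
    have h3 : δ / (|C| + 1) * N z ≤ δ * ‖z‖ := by
      rw [div_mul_eq_mul_div, div_le_iff₀ hC1]
      have h4 : N z ≤ (|C| + 1) * ‖z‖ := by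
        refine (hup z).trans (mul_le_mul_of_nonneg_right ?_ (norm_nonneg _))
        linarith [le_abs_self C]
      nlinarith
    linarith

omit [FiniteDimensional ℂ E] in
/-- A norm-one functional for a strictly convex norm attains its norm on one line only. -/
lemma lt_of_not_prop {Q : E → ℝ} (hQ : IsSN Q)
    (hstrict : ∀ x v, Q (x + v) ≤ Q x → Q (x - v) ≤ Q x → v = 0) {l : E →L[ℂ] ℂ}
    (hl : ∀ w, ‖l w‖ ≤ Q w) {p w : E} (hp : ‖l p‖ = Q p) (hp0 : p ≠ 0) (hw0 : w ≠ 0)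
    (hpw : ∀ c : ℂ, w ≠ c • p) : ‖l w‖ < Q w := by
  rcases (hl w).lt_or_eq with h | h
  · exact h
  exfalso
  have hQp : Q p ≠ 0 := fun h0 => hp0 (hQ.def0 p h0)
  have hQw : Q w ≠ 0 := fun h0 => hw0 (hQ.def0 w h0)
  have hlp : l p ≠ 0 := by
    intro h0
    rw [h0, norm_zero] at hp
    exact hQp hp.symm
  have hlw : l w ≠ 0 := by
    intro h0
    rw [h0, norm_zero] at h
    exact hQw h.symm
  set p' := (l p)⁻¹ • p with hp'
  set w' := (l w)⁻¹ • w with hw'
  have hQp' : Q p' = 1 := by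
    rw [hp', hQ.smul, norm_inv, hp, inv_mul_cancel₀ hQp]
  have hQw' : Q w' = 1 := by
    rw [hw', hQ.smul, norm_inv, h, inv_mul_cancel₀ hQw]
  have hlp' : l p' = 1 := by rw [hp', map_smul, smul_eq_mul, inv_mul_cancel₀ hlp]
  have hlw' : l w' = 1 := by rw [hw', map_smul, smul_eq_mul, inv_mul_cancel₀ hlw]
  have hx : 1 ≤ Q ((1 / 2 : ℂ) • (p' + w')) := by
    have h1 := hl ((1 / 2 : ℂ) • (p' + w'))
    rw [map_smul, map_add, hlp', hlw', smul_eq_mul] at h1
    have h2 : ‖(1 / 2 : ℂ) * (1 + 1)‖ = 1 := by norm_num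
    rw [h2] at h1
    exact h1
  have e1 : (1 / 2 : ℂ) • (p' + w') + (1 / 2 : ℂ) • (p' - w') = p' := by
    rw [← smul_add]
    have : p' + w' + (p' - w') = (2 : ℂ) • p' := by rw [two_smul]; abel
    rw [this, smul_smul]
    norm_num
  have e2 : (1 / 2 : ℂ) • (p' + w') - (1 / 2 : ℂ) • (p' - w') = w' := by
    rw [← smul_sub]
    have : p' + w' - (p' - w') = (2 : ℂ) • w' := by rw [two_smul]; abel
    rw [this, smul_smul]
    norm_num
  have h3 := hstrict ((1 / 2 : ℂ) • (p' + w')) ((1 / 2 : ℂ) • (p' - w')) (by rw [e1, hQp']; exact hx)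
    (by rw [e2, hQw']; exact hx)
  have h4 : p' - w' = 0 := (smul_eq_zero.mp h3).resolve_left (by norm_num)
  have h5 : w' = p' := (sub_eq_zero.mp h4).symm
  apply hpw (l w * (l p)⁻¹)
  rw [← smul_smul, ← hp', ← h5, hw', smul_smul, mul_inv_cancel₀ hlw, one_smul]

theorem exists_spikes {Q : E → ℝ} (hQ : IsSN Q) {C : ℝ} (hup : ∀ z, Q z ≤ C * ‖z‖)
    (hstrict : ∀ x v, Q (x + v) ≤ Q x → Q (x - v) ≤ Q x → v = 0) {η : ℝ} (hη : 0 < η)
    {A B : Set E} (hA : IsClosed A) (hB : IsClosed B)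
    (hAs : ∀ (c : ℂ) z, z ∈ A → c • z ∈ A) (hBs : ∀ (c : ℂ) z, z ∈ B → c • z ∈ B)
    (hAB : ∀ z ∈ A, ∀ w ∈ B, z ≠ 0 → w ≠ 0 → ∀ c : ℂ, w ≠ c • z) :
    ∃ (t : Finset E) (m : t → (E →L[ℂ] ℂ)), (∀ j z, ‖m j z‖ ≤ (1 + η) * Q z) ∧
      (∀ z ∈ A, z ≠ 0 → ∃ j, Q z < ‖m j z‖) ∧ (∀ z ∈ B, z ≠ 0 → ∀ j, ‖m j z‖ < Q z) := by
  classical
  have : ProperSpace E := FiniteDimensional.proper ℂ E
  have hQc := hQ.continuous hup
  have hone : ∀ p ∈ A ∩ Metric.sphere (0 : E) 1, ∃ m : E →L[ℂ] ℂ, (∀ z, ‖m z‖ ≤ (1 + η) * Q z) ∧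
      Q p < ‖m p‖ ∧ ∀ w ∈ B, ‖w‖ = 1 → ‖m w‖ < Q w := by
    rintro p ⟨hpA, hp1⟩
    have hp1' : ‖p‖ = 1 := by simpa using hp1
    have hp0 : p ≠ 0 := by
      rintro rfl
      simp at hp1'
    obtain ⟨l, hl1, hl2⟩ := exists_functional hQ p
    have hlt : ∀ w ∈ B, ‖w‖ = 1 → ‖l w‖ < Q w := by
      intro w hw hw1
      have hw0 : w ≠ 0 := by
        rintro rfl
        simp at hw1
      exact lt_of_not_prop hQ hstrict hl1 hl2 hp0 hw0 (hAB p hpA w hw hp0 hw0)
    have hQp : 0 < Q p := lt_of_le_of_ne (hQ.nonneg p) fun h => hp0 (hQ.def0 p h.symm)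
    obtain ⟨η', hη', hηle, hη2⟩ : ∃ η' : ℝ, 0 < η' ∧ η' ≤ η ∧
        ∀ w ∈ B, ‖w‖ = 1 → (1 + η') * ‖l w‖ < Q w := by
      have hcomp : IsCompact (B ∩ Metric.sphere (0 : E) 1) :=
        (isCompact_sphere (0 : E) 1).inter_left hB
      rcases (B ∩ Metric.sphere (0 : E) 1).eq_empty_or_nonempty with hem | hne
      · refine ⟨η, hη, le_rfl, fun w hw hw1 => ?_⟩
        have : w ∈ B ∩ Metric.sphere (0 : E) 1 := ⟨hw, by simpa using hw1⟩
        rw [hem] at this
        exact absurd this (Set.notMem_empty w)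
      · obtain ⟨w0, hw0, hmin⟩ := hcomp.exists_isMinOn hne
          (f := fun w => Q w - ‖l w‖) (by fun_prop)
        have hκ : 0 < Q w0 - ‖l w0‖ := by
          have := hlt w0 hw0.1 (by simpa using hw0.2)
          linarith
        set κ := Q w0 - ‖l w0‖ with hκd
        have hC1 : 0 < |C| + 1 := by positivity
        refine ⟨min η (κ / (2 * (|C| + 1))), lt_min hη (by positivity), min_le_left _ _,
          fun w hw hw1 => ?_⟩
        have h1 : κ ≤ Q w - ‖l w‖ := hmin (show w ∈ B ∩ Metric.sphere (0 : E) 1 from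
          ⟨hw, by simpa using hw1⟩)
        have h2 : ‖l w‖ ≤ |C| + 1 := by
          have h3 := hl1 w
          have h4 := hup w
          rw [hw1, mul_one] at h4
          linarith [le_abs_self C]
        have h3 : min η (κ / (2 * (|C| + 1))) * ‖l w‖ ≤ κ / 2 := by
          calc min η (κ / (2 * (|C| + 1))) * ‖l w‖ ≤ κ / (2 * (|C| + 1)) * (|C| + 1) := by
                refine mul_le_mul (min_le_right _ _) h2 (norm_nonneg _) (by positivity)
            _ = κ / 2 := by field_simp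
        nlinarith
    have hmn : ∀ z, ‖(((1 + η' : ℝ) : ℂ) • l) z‖ = (1 + η') * ‖l z‖ := by
      intro z
      rw [smul_apply, norm_smul, Complex.norm_real,
        Real.norm_of_nonneg (by linarith)]
    refine ⟨((1 + η' : ℝ) : ℂ) • l, fun z => ?_, ?_, fun w hw hw1 => ?_⟩
    · rw [hmn]
      have h1 := hl1 z
      have h2 := hQ.nonneg z
      have h3 := norm_nonneg (l z)
      nlinarith
    · rw [hmn, hl2]
      nlinarith
    · rw [hmn]
      exact hη2 w hw hw1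
  choose! f hf1 hf2 hf3 using hone
  have hcA : IsCompact (A ∩ Metric.sphere (0 : E) 1) := (isCompact_sphere (0 : E) 1).inter_left hA
  obtain ⟨t, htA, ht⟩ := hcA.elim_nhds_subcover (fun p => {z | Q z < ‖f p z‖}) (fun p hp => by
    refine IsOpen.mem_nhds (isOpen_lt (by fun_prop) (by fun_prop)) ?_
    exact hf2 p hp)
  refine ⟨t, fun j => f j, fun j z => hf1 j (htA j j.2) z, fun z hz hz0 => ?_,
    fun z hz hz0 j => ?_⟩
  · obtain ⟨w, hw, hzw, hNz⟩ := hQ.normalize z hz0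
    have hwA : w ∈ A := by
      have h1 := hAs ((‖z‖ : ℂ)⁻¹) z hz
      have h2 : ((‖z‖ : ℂ)⁻¹) • z = w := by
        conv_lhs => rw [hzw]
        rw [smul_smul]
        have : ((‖(‖z‖ : ℂ) • w‖ : ℝ) : ℂ) = (‖z‖ : ℂ) := by
          rw [← hzw]
        rw [this, inv_mul_cancel₀ (by exact_mod_cast norm_ne_zero_iff.mpr hz0), one_smul]
      rwa [h2] at h1
    have h1 := ht (show w ∈ A ∩ Metric.sphere (0 : E) 1 from ⟨hwA, by simpa using hw⟩)
    simp only [Set.mem_iUnion] at h1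
    obtain ⟨i, hi, h2⟩ := h1
    refine ⟨⟨i, hi⟩, ?_⟩
    have h3 : ‖f i z‖ = ‖z‖ * ‖f i w‖ := by
      conv_lhs => rw [hzw]
      rw [map_smul, norm_smul, Complex.norm_real, norm_norm]
    rw [h3, hNz]
    exact mul_lt_mul_of_pos_left h2 (norm_pos_iff.mpr hz0)
  · obtain ⟨w, hw, hzw, hNz⟩ := hQ.normalize z hz0
    have hwB : w ∈ B := by
      have h1 := hBs ((‖z‖ : ℂ)⁻¹) z hz
      have h2 : ((‖z‖ : ℂ)⁻¹) • z = w := by
        conv_lhs => rw [hzw]
        rw [smul_smul]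
        have : ((‖(‖z‖ : ℂ) • w‖ : ℝ) : ℂ) = (‖z‖ : ℂ) := by
          rw [← hzw]
        rw [this, inv_mul_cancel₀ (by exact_mod_cast norm_ne_zero_iff.mpr hz0), one_smul]
      rwa [h2] at h1
    have h2 := hf3 j (htA j j.2) w hwB hw
    have h3 : ‖f j z‖ = ‖z‖ * ‖f j w‖ := by
      conv_lhs => rw [hzw]
      rw [map_smul, norm_smul, Complex.norm_real, norm_norm]
    rw [h3, hNz]
    exact mul_lt_mul_of_pos_left h2 (norm_pos_iff.mpr hz0)

end General

end Pool.Agent.Helper92.Crit
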