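import Mathlib
import Pool.Agent.Helper92.Crit.Approx

/-!
# Norms without bad configurations in a given region are dense
-/

namespace Pool.Agent.Helper92.Crit

open Filter Topology

variable {E : Type*} [NormedAddCommGroup E] [InnerProductSpace ℂ E]

/-- The norms between the Euclidean norm and its double. -/
structure IsN (N : E → ℝ) : Prop extends IsSN N where
  lower : ∀ z, ‖z‖ ≤ N z
  upper : ∀ z, N z ≤ 2 * ‖z‖

/-- The maximum of a norm and finitely many functionals. -/
noncomputable def mx {ι : Type*} [Fintype ι] (Q : E → ℝ) (m : ι → (E →L[ℂ] ℂ)) (z : E) : ℝ :=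
  max (Q z) ‖fun j => m j z‖

lemma mx_isSN {ι : Type*} [Fintype ι] {Q : E → ℝ} (hQ : IsSN Q) (m : ι → (E →L[ℂ] ℂ)) :
    IsSN (mx Q m) where
  add z w := by
    have h1 := hQ.add z w
    have h2 : ‖fun j => m j (z + w)‖ ≤ ‖fun j => m j z‖ + ‖fun j => m j w‖ := by
      have e : (fun j => m j (z + w)) = (fun j => m j z) + fun j => m j w := by
        funext j
        simp
      rw [e]
      exact norm_add_le _ _
    unfold mx
    refine max_le ?_ ?_
    · exact h1.trans (add_le_add (le_max_left _ _) (le_max_left _ _))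
    · exact h2.trans (add_le_add (le_max_right _ _) (le_max_right _ _))
  smul c z := by
    have h1 := hQ.smul c z
    have h2 : ‖fun j => m j (c • z)‖ = ‖c‖ * ‖fun j => m j z‖ := by
      have e : (fun j => m j (c • z)) = c • fun j => m j z := by
        funext j
        simp
      rw [e, norm_smul]
    unfold mx
    rw [h1, h2, mul_max_of_nonneg _ _ (norm_nonneg c)]
  def0 z h := by
    refine hQ.def0 z (le_antisymm ?_ (hQ.nonneg z))
    rw [← h]
    exact le_max_left _ _

/-- No contraction `a` for `N` moves `x` (in the cone `B`) to `a x` (in the cone `A`) to `a (a x)`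
(in `B`), all of norm one, unless `a ^ 2` has rank at most one. -/
def NoBad (N : E → ℝ) (A B : Set E) : Prop :=
  ∀ (a : E →L[ℂ] E) (x : E), (∀ z, N (a z) ≤ N z) → N x = 1 → N (a (a x)) = 1 → a x ∈ A → x ∈ B →
    a (a x) ∈ B → ∀ u v : E, ∃ α β : ℂ, (α ≠ 0 ∨ β ≠ 0) ∧ α • a (a u) = β • a (a v)

variable [FiniteDimensional ℂ E]

theorem special_dense {N : E → ℝ} (hN : IsN N) {A B : Set E} (hA : IsClosed A) (hB : IsClosed B)
    (hAs : ∀ (c : ℂ) z, z ∈ A → c • z ∈ A) (hBs : ∀ (c : ℂ) z, z ∈ B → c • z ∈ B)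
    (hAB : ∀ z ∈ A, ∀ w ∈ B, z ≠ 0 → w ≠ 0 → ∀ c : ℂ, w ≠ c • z) {ε : ℝ} (hε : 0 < ε)
    (hε1 : ε ≤ 1) :
    ∃ N' : E → ℝ, IsN N' ∧ (∀ z, |N' z - N z| ≤ ε * ‖z‖) ∧ NoBad N' A B := by
  classical
  -- slack
  let N₁ : E → ℝ := fun z => (1 - ε) * N z + ε * (3 / 2) * ‖z‖
  have hN₁ : IsSN N₁ :=
    { add := fun z w => by
        have h1 := hN.add z w
        have h2 := norm_add_le z w
        have h3 : (1 - ε) * N (z + w) ≤ (1 - ε) * (N z + N w) :=
          mul_le_mul_of_nonneg_left h1 (by linarith)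
        have h4 : ε * (3 / 2) * ‖z + w‖ ≤ ε * (3 / 2) * (‖z‖ + ‖w‖) :=
          mul_le_mul_of_nonneg_left h2 (by positivity)
        show (1 - ε) * N (z + w) + ε * (3 / 2) * ‖z + w‖
          ≤ ((1 - ε) * N z + ε * (3 / 2) * ‖z‖) + ((1 - ε) * N w + ε * (3 / 2) * ‖w‖)
        linarith
      smul := fun c z => by
        show (1 - ε) * N (c • z) + ε * (3 / 2) * ‖c • z‖
          = ‖c‖ * ((1 - ε) * N z + ε * (3 / 2) * ‖z‖)
        rw [hN.smul, norm_smul]
        ring
      def0 := fun z h => by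
        have h1 : (1 - ε) * N z + ε * (3 / 2) * ‖z‖ = 0 := h
        have h2 := hN.nonneg z
        have h3 : 0 ≤ (1 - ε) * N z := mul_nonneg (by linarith) h2
        have h4 : ε * (3 / 2) * ‖z‖ = 0 := by
          have : 0 ≤ ε * (3 / 2) * ‖z‖ := by positivity
          linarith
        have h5 : ‖z‖ = 0 := by
          rcases mul_eq_zero.mp h4 with h | h
          · exfalso
            have : 0 < ε * (3 / 2) := by positivity
            linarith
          · exact h
        exact norm_eq_zero.mp h5 }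
  have hlo : ∀ z, (1 + ε / 2) * ‖z‖ ≤ N₁ z := by
    intro z
    have h1 := hN.lower z
    have h2 : (1 - ε) * ‖z‖ ≤ (1 - ε) * N z := mul_le_mul_of_nonneg_left h1 (by linarith)
    show _ ≤ (1 - ε) * N z + ε * (3 / 2) * ‖z‖
    linarith
  have hup : ∀ z, N₁ z ≤ (2 - ε / 2) * ‖z‖ := by
    intro z
    have h1 := hN.upper z
    have h2 : (1 - ε) * N z ≤ (1 - ε) * (2 * ‖z‖) := mul_le_mul_of_nonneg_left h1 (by linarith)
    show (1 - ε) * N z + ε * (3 / 2) * ‖z‖ ≤ _
    linarith
  have hdist : ∀ z, |N₁ z - N z| ≤ ε / 2 * ‖z‖ := by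
    intro z
    have h1 := hN.lower z
    have h2 := hN.upper z
    have e : N₁ z - N z = ε * (3 / 2 * ‖z‖ - N z) := by
      show (1 - ε) * N z + ε * (3 / 2) * ‖z‖ - N z = _
      ring
    have h3 : |3 / 2 * ‖z‖ - N z| ≤ 1 / 2 * ‖z‖ := by
      rw [abs_le]
      constructor <;> linarith
    rw [e, abs_mul, abs_of_pos hε]
    have h4 := mul_le_mul_of_nonneg_left h3 hε.le
    linarith
  obtain ⟨t, m, k, hk, hsep, hQ1, hQ2⟩ := approx_smooth hN₁ (C := 2 - ε / 2)
    (fun z => le_trans (by nlinarith [norm_nonneg z]) (hlo z)) hup (δ := ε / 8) (by positivity)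
    (by linarith)
  have hQ := QN_isSN m hk hsep
  set Q := QN m k with hQd
  have hQlo : ∀ z, ‖z‖ ≤ Q z := by
    intro z
    have h1 := hlo z
    have h2 := hQ1 z
    nlinarith [norm_nonneg z]
  have hQup : ∀ z, Q z ≤ (2 - 3 * ε / 8) * ‖z‖ := by
    intro z
    have h1 := hup z
    have h2 := hQ2 z
    nlinarith [norm_nonneg z]
  have hstrict : ∀ x v, Q (x + v) ≤ Q x → Q (x - v) ≤ Q x → v = 0 := fun x v h1 h2 =>
    QN_strict m hk hsep h1 h2
  obtain ⟨t2, m2, hm1, hm2, hm3⟩ := exists_spikes hQ hQup hstrict (η := ε / 16) (by positivity)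
    hA hB hAs hBs hAB
  have hM := mx_isSN hQ m2
  have hQc := hQ.continuous hQup
  have hQM : ∀ z, Q z ≤ mx Q m2 z := fun z => le_max_left _ _
  have hMQ : ∀ z, mx Q m2 z ≤ (1 + ε / 16) * Q z := by
    intro z
    refine max_le ?_ ?_
    · nlinarith [hQ.nonneg z]
    · refine (pi_norm_le_iff_of_nonneg ?_).mpr fun j => hm1 j z
      have := hQ.nonneg z
      positivity
  refine ⟨mx Q m2, { hM with lower := fun z => (hQlo z).trans (hQM z), upper := fun z => ?_ },
    fun z => ?_, ?_⟩
  · refine (hMQ z).trans ?_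
    have h1 := hQup z
    have h2 : (1 + ε / 16) * Q z ≤ (1 + ε / 16) * ((2 - 3 * ε / 8) * ‖z‖) :=
      mul_le_mul_of_nonneg_left h1 (by positivity)
    refine h2.trans ?_
    rw [← mul_assoc]
    refine mul_le_mul_of_nonneg_right ?_ (norm_nonneg z)
    nlinarith
  · have h1 := hdist z
    have h2 := hQ1 z
    have h3 := hQ2 z
    have h4 := hQM z
    have h5 := hMQ z
    have h6 : ε / 16 * Q z ≤ ε / 8 * ‖z‖ := by
      have h7 : Q z ≤ 2 * ‖z‖ := (hQup z).trans (by nlinarith [norm_nonneg z])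
      nlinarith
    have hn := norm_nonneg z
    rw [abs_le] at h1 ⊢
    constructor <;> nlinarith [h1.1, h1.2]
  · intro a x hcon hx hx2 hxA hxB hx2B u v
    have hx0 : x ≠ 0 := by
      rintro rfl
      rw [hM.zero] at hx
      exact zero_ne_one hx
    have hax : mx Q m2 (a x) = 1 := by
      refine le_antisymm ((hcon x).trans hx.le) ?_
      rw [← hx2]
      exact hcon _
    have hax0 : a x ≠ 0 := by
      intro h
      rw [h, hM.zero] at hax
      exact zero_ne_one hax
    have haax0 : a (a x) ≠ 0 := by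
      intro h
      rw [h, hM.zero] at hx2
      exact zero_ne_one hx2
    have hmxQ : ∀ z, (∀ j, ‖m2 j z‖ < Q z) → mx Q m2 z = Q z := by
      intro z hz
      refine max_eq_left ?_
      refine (pi_norm_le_iff_of_nonneg (hQ.nonneg z)).mpr fun j => (hz j).le
    have hQx : Q x = 1 := by rw [← hmxQ x (hm3 x hxB hx0), hx]
    have hQx2 : Q (a (a x)) = 1 := by rw [← hmxQ _ (hm3 _ hx2B haax0), hx2]
    refine rank_le_one (mx Q m2) a hcon m2 (fun j z => ?_) x hax (2 * k) (by omega) ?_ ?_ ?_ u v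
    · exact (norm_le_pi_norm (fun j => m2 j z) j).trans (le_max_right _ _)
    · intro y
      obtain ⟨w, d, hw, hw0, hle⟩ := QN_smooth m hk x y
      refine ⟨w, d, hw, ?_, ?_⟩
      · rw [hw0, ← hQd, hQx, one_pow]
      · have hc : Tendsto (fun t : ℝ => x + (t : ℂ) • y) (𝓝 0) (𝓝 x) := by
          have h : Continuous fun t : ℝ => x + (t : ℂ) • y := by fun_prop
          simpa using h.tendsto 0
        have hev : ∀ᶠ z in 𝓝 x, ∀ j, ‖m2 j z‖ < Q z := by
          rw [eventually_all]
          intro j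
          exact (isOpen_lt (by fun_prop) hQc).mem_nhds (hm3 x hxB hx0 j)
        filter_upwards [hc.eventually hev] with t ht
        rw [hmxQ _ ht]
        exact hle t
    · obtain ⟨j, hj⟩ := hm2 _ hxA hax0
      have hev : ∀ᶠ z in 𝓝 (a x), Q z < ‖m2 j z‖ :=
        (isOpen_lt hQc (by fun_prop)).mem_nhds hj
      filter_upwards [hev] with z hz
      have : Nonempty t2 := ⟨j⟩
      obtain ⟨i, hi⟩ := Finite.exists_max (fun j => ‖m2 j z‖)
      refine ⟨i, ?_⟩
      have h1 : ‖fun j => m2 j z‖ = ‖m2 i z‖ := by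
        refine le_antisymm ?_ (norm_le_pi_norm (fun j => m2 j z) i)
        exact (pi_norm_le_iff_of_nonneg (norm_nonneg _)).mpr fun j => hi j
      unfold mx
      rw [h1]
      exact max_eq_right (hz.le.trans (hi j))
    · refine Eventually.of_forall fun w h1 h2 => ?_
      refine hstrict (a (a x)) w ?_ ?_
      · rw [hQx2]
        exact (hQM _).trans h1
      · rw [hQx2]
        exact (hQM _).trans h2

end Pool.Agent.Helper92.Crit
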