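import Mathlib
import Pool.Agent.Helper92.Crit.Dense

/-!
# A generic norm
-/

namespace Pool.Agent.Helper92.Crit

open Filter Topology

variable {E : Type*} [NormedAddCommGroup E] [InnerProductSpace ℂ E]

/-- The space of norms between the Euclidean norm and its double, with pointwise convergence. -/
abbrev NS (E : Type*) [NormedAddCommGroup E] [InnerProductSpace ℂ E] : Type _ :=
  {N : E → ℝ // IsN N}

lemma isCompact_isN : IsCompact {N : E → ℝ | IsN N} := by
  have h1 : IsCompact (Set.pi Set.univ fun z : E => Set.Icc ‖z‖ (2 * ‖z‖)) :=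
    isCompact_univ_pi fun z => isCompact_Icc
  refine h1.of_isClosed_subset ?_ ?_
  · have e : {N : E → ℝ | IsN N} = {N | ∀ z w, N (z + w) ≤ N z + N w} ∩
        {N | ∀ (c : ℂ) z, N (c • z) = ‖c‖ * N z} ∩ {N | ∀ z, ‖z‖ ≤ N z} ∩
        {N | ∀ z, N z ≤ 2 * ‖z‖} := by
      ext N
      constructor
      · intro h
        have h : IsN N := h
        exact ⟨⟨⟨h.add, h.smul⟩, h.lower⟩, h.upper⟩
      · rintro ⟨⟨⟨h1, h2⟩, h3⟩, h4⟩
        exact { add := h1, smul := h2, lower := h3, upper := h4, def0 := fun z hz => by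
                  have := h3 z
                  rw [hz] at this
                  exact norm_le_zero_iff.mp this }
    rw [e]
    refine ((IsClosed.inter ?_ ?_).inter ?_).inter ?_
    · simp only [Set.ofPred_forall]
      exact isClosed_iInter fun z => isClosed_iInter fun w =>
        isClosed_le (by fun_prop) (by fun_prop)
    · simp only [Set.ofPred_forall]
      exact isClosed_iInter fun c => isClosed_iInter fun z =>
        isClosed_eq (by fun_prop) (by fun_prop)
    · simp only [Set.ofPred_forall]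
      exact isClosed_iInter fun z => isClosed_le continuous_const (continuous_apply _)
    · simp only [Set.ofPred_forall]
      exact isClosed_iInter fun z => isClosed_le (continuous_apply _) continuous_const
  · intro N hN z _
    have hN : IsN N := hN
    exact ⟨hN.lower z, hN.upper z⟩

instance : CompactSpace (NS E) := isCompact_iff_compactSpace.mp isCompact_isN

instance : Nonempty (NS E) := ⟨⟨fun z => ‖z‖,
  { add := norm_add_le
    smul := fun c z => norm_smul c z
    def0 := fun _ h => norm_eq_zero.mp h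
    lower := fun _ => le_rfl
    upper := fun z => by linarith [norm_nonneg z] }⟩⟩

/-- Evaluation is jointly continuous. -/
lemma continuous_eval : Continuous fun p : NS E × E => p.1.1 p.2 := by
  rw [continuous_iff_continuousAt]
  rintro ⟨N, z⟩
  rw [ContinuousAt, Metric.tendsto_nhds]
  intro ε hε
  have h1 : ∀ᶠ M : NS E in 𝓝 N, |M.1 z - N.1 z| < ε / 2 := by
    have hc : Continuous fun M : NS E => M.1 z := (continuous_apply z).comp continuous_subtype_val
    have := Metric.tendsto_nhds.mp (hc.tendsto N) (ε / 2) (by positivity)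
    simpa [Real.dist_eq] using this
  have h2 : ∀ᶠ w : E in 𝓝 z, ‖w - z‖ < ε / 4 := by
    have := Metric.ball_mem_nhds z (show (0 : ℝ) < ε / 4 by positivity)
    filter_upwards [this] with w hw
    rwa [Metric.mem_ball, dist_eq_norm] at hw
  filter_upwards [h1.prod_nhds h2] with p hp
  have h3 := p.1.2.toIsSN.lip p.1.2.upper p.2 z
  rw [Real.dist_eq]
  have h4 : |p.1.1 p.2 - N.1 z| ≤ |p.1.1 p.2 - p.1.1 z| + |p.1.1 z - N.1 z| := by
    have : p.1.1 p.2 - N.1 z = (p.1.1 p.2 - p.1.1 z) + (p.1.1 z - N.1 z) := by ring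
    rw [this]
    exact abs_add_le _ _
  have h5 : |p.1.1 z - N.1 z| < ε / 2 := hp.1
  have h6 : ‖p.2 - z‖ < ε / 4 := hp.2
  linarith

/-- Gram determinant of two vectors. -/
noncomputable def gram (p q : E) : ℝ := ‖p‖ ^ 2 * ‖q‖ ^ 2 - ‖inner ℂ p q‖ ^ 2

lemma norm_inner_smul_self (c : ℂ) (q : E) : ‖inner ℂ (c • q) q‖ = ‖c‖ * ‖q‖ ^ 2 := by
  have h : ‖inner ℂ q q‖ = ‖q‖ ^ 2 := by
    rw [inner_self_eq_norm_sq_to_K]
    simp
  rw [inner_smul_left, norm_mul, h, RCLike.norm_conj]

lemma gram_eq_zero {p q : E} {α β : ℂ} (h : α ≠ 0 ∨ β ≠ 0) (he : α • p = β • q) :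
    gram p q = 0 := by
  unfold gram
  rcases h with h | h
  · have hp : p = (α⁻¹ * β) • q := by
      rw [← smul_smul, ← he, smul_smul, inv_mul_cancel₀ h, one_smul]
    rw [hp, norm_smul, norm_inner_smul_self]
    ring
  · have hq : q = (β⁻¹ * α) • p := by
      rw [← smul_smul, he, smul_smul, inv_mul_cancel₀ h, one_smul]
    rw [norm_inner_symm, hq, norm_smul, norm_inner_smul_self]
    ring

lemma exists_of_gram_eq_zero {p q : E} (h : gram p q ≤ 0) :
    ∃ α β : ℂ, (α ≠ 0 ∨ β ≠ 0) ∧ α • p = β • q := by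
  by_cases hp : p = 0
  · exact ⟨1, 0, Or.inl one_ne_zero, by rw [hp]; simp⟩
  by_cases hq : q = 0
  · exact ⟨0, 1, Or.inr one_ne_zero, by rw [hq]; simp⟩
  have h1 : ‖inner ℂ p q‖ = ‖p‖ * ‖q‖ := by
    refine le_antisymm (norm_inner_le_norm p q) ?_
    unfold gram at h
    refine le_of_sq_le_sq ?_ (norm_nonneg _)
    rw [mul_pow]
    linarith
  obtain ⟨r, hr, hqr⟩ := (norm_inner_eq_norm_iff hp hq).mp h1
  exact ⟨r, 1, Or.inl hr, by rw [one_smul, hqr]⟩

end Pool.Agent.Helper92.Crit
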