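import Mathlib
import Pool.Agent.Helper92.Crit.Baire

/-!
# A generic norm
-/

namespace Pool.Agent.Helper92.Crit

open Filter Topology

variable {E : Type*} [NormedAddCommGroup E] [InnerProductSpace ℂ E]

/-- Vectors close to the direction `c`. -/
def coneA (c : E) (r : ℝ) : Set E := {z | r * ‖z‖ ≤ ‖inner ℂ c z‖}

/-- Vectors far from the direction `c`. -/
def coneB (c : E) (r : ℝ) : Set E := {z | ‖inner ℂ c z‖ ≤ r * ‖z‖}

lemma isClosed_coneA (c : E) (r : ℝ) : IsClosed (coneA c r) :=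
  isClosed_le (by fun_prop) (by fun_prop)

lemma isClosed_coneB (c : E) (r : ℝ) : IsClosed (coneB c r) :=
  isClosed_le (by fun_prop) (by fun_prop)

lemma smul_coneA {c : E} {r : ℝ} (d : ℂ) (z : E) (h : z ∈ coneA c r) : d • z ∈ coneA c r := by
  have h : r * ‖z‖ ≤ ‖inner ℂ c z‖ := h
  show r * ‖d • z‖ ≤ ‖inner ℂ c (d • z)‖
  rw [inner_smul_right, norm_mul, norm_smul]
  have := mul_le_mul_of_nonneg_left h (norm_nonneg d)
  linarith

lemma smul_coneB {c : E} {r : ℝ} (d : ℂ) (z : E) (h : z ∈ coneB c r) : d • z ∈ coneB c r := by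
  have h : ‖inner ℂ c z‖ ≤ r * ‖z‖ := h
  show ‖inner ℂ c (d • z)‖ ≤ r * ‖d • z‖
  rw [inner_smul_right, norm_mul, norm_smul]
  have := mul_le_mul_of_nonneg_left h (norm_nonneg d)
  linarith

lemma cone_sep {c : E} {r r' : ℝ} (hr : r' < r) :
    ∀ z ∈ coneA c r, ∀ w ∈ coneB c r', z ≠ 0 → w ≠ 0 → ∀ d : ℂ, w ≠ d • z := by
  intro z hz w hw _ hw0 d hd
  have h1 : w ∈ coneA c r := by
    rw [hd]
    exact smul_coneA d z hz
  have h1 : r * ‖w‖ ≤ ‖inner ℂ c w‖ := h1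
  have h2 : ‖inner ℂ c w‖ ≤ r' * ‖w‖ := hw
  have h3 : 0 < ‖w‖ := norm_pos_iff.mpr hw0
  nlinarith

lemma exists_cone {D : Set E} (hD : Dense D) {p x y : E} (hp : p ≠ 0) (hx : x ≠ 0) (hy : y ≠ 0)
    (hpx : ∀ d : ℂ, x ≠ d • p) (hpy : ∀ d : ℂ, y ≠ d • p) :
    ∃ c ∈ D, ∃ r r' : ℚ, (r' : ℝ) < r ∧ p ∈ coneA c (r : ℝ) ∧ x ∈ coneB c (r' : ℝ) ∧
      y ∈ coneB c (r' : ℝ) := by
  have key : ∀ w : E, w ≠ 0 → (∀ d : ℂ, w ≠ d • p) → ‖inner ℂ p w‖ / ‖w‖ < ‖p‖ := by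
    intro w hw hpw
    have hw' : 0 < ‖w‖ := norm_pos_iff.mpr hw
    rw [div_lt_iff₀ hw']
    refine lt_of_le_of_ne (norm_inner_le_norm p w) ?_
    intro h
    obtain ⟨r, _, hr⟩ := (norm_inner_eq_norm_iff hp hw).mp h
    exact hpw r hr
  have hx' : 0 < ‖x‖ := norm_pos_iff.mpr hx
  have hy' : 0 < ‖y‖ := norm_pos_iff.mpr hy
  have hp' : 0 < ‖p‖ := norm_pos_iff.mpr hp
  obtain ⟨r', hr'1, hr'2⟩ := exists_rat_btwn (max_lt (key x hx hpx) (key y hy hpy))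
  obtain ⟨r, hr1, hr2⟩ := exists_rat_btwn hr'2
  have ho : IsOpen {c : E | (r : ℝ) * ‖p‖ < ‖inner ℂ c p‖ ∧ ‖inner ℂ c x‖ < (r' : ℝ) * ‖x‖ ∧
      ‖inner ℂ c y‖ < (r' : ℝ) * ‖y‖} := by
    have o1 : IsOpen {c : E | (r : ℝ) * ‖p‖ < ‖inner ℂ c p‖} :=
      isOpen_lt (by fun_prop) (by fun_prop)
    have o2 : IsOpen {c : E | ‖inner ℂ c x‖ < (r' : ℝ) * ‖x‖} :=
      isOpen_lt (by fun_prop) (by fun_prop)
    have o3 : IsOpen {c : E | ‖inner ℂ c y‖ < (r' : ℝ) * ‖y‖} :=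
      isOpen_lt (by fun_prop) (by fun_prop)
    exact o1.inter (o2.inter o3)
  have hne : ({c : E | (r : ℝ) * ‖p‖ < ‖inner ℂ c p‖ ∧ ‖inner ℂ c x‖ < (r' : ℝ) * ‖x‖ ∧
      ‖inner ℂ c y‖ < (r' : ℝ) * ‖y‖}).Nonempty := by
    refine ⟨p, ?_, ?_, ?_⟩
    · have : ‖inner ℂ p p‖ = ‖p‖ ^ 2 := by
        rw [inner_self_eq_norm_sq_to_K]
        simp
      rw [this]
      nlinarith
    · have := lt_of_le_of_lt (le_max_left _ _) hr'1
      rwa [div_lt_iff₀ hx'] at this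
    · have := lt_of_le_of_lt (le_max_right _ _) hr'1
      rwa [div_lt_iff₀ hy'] at this
  obtain ⟨c, ⟨h1, h2, h3⟩, hcD⟩ := hD.inter_open_nonempty _ ho hne
  exact ⟨c, hcD, r, r', hr1, h1.le, h2.le, h3.le⟩

/-- The norms having a bad configuration in the given region. -/
def Bad (A B : Set E) (u v : E) (m : ℕ) : Set (NS E) :=
  {N | ∃ a : E →L[ℂ] E, ‖a‖ ≤ 2 ∧ ∃ x : E, ‖x‖ ≤ 1 ∧ (∀ z, N.1 (a z) ≤ N.1 z) ∧ N.1 x = 1 ∧
    N.1 (a (a x)) = 1 ∧ a x ∈ A ∧ x ∈ B ∧ a (a x) ∈ B ∧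
    1 / ((m : ℝ) + 1) ≤ gram (a (a u)) (a (a v))}

variable [FiniteDimensional ℂ E]

lemma isClosed_Bad {A B : Set E} (hA : IsClosed A) (hB : IsClosed B) (u v : E) (m : ℕ) :
    IsClosed (Bad A B u v m) := by
  haveI : ProperSpace E := FiniteDimensional.proper ℂ E
  haveI : FiniteDimensional ℂ (E →L[ℂ] E) := inferInstance
  haveI : ProperSpace (E →L[ℂ] E) := FiniteDimensional.proper ℂ _
  let K : Set (NS E × (E →L[ℂ] E) × E) :=
    {q | ‖q.2.1‖ ≤ 2 ∧ ‖q.2.2‖ ≤ 1 ∧ (∀ z, q.1.1 (q.2.1 z) ≤ q.1.1 z) ∧ q.1.1 q.2.2 = 1 ∧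
      q.1.1 (q.2.1 (q.2.1 q.2.2)) = 1 ∧ q.2.1 q.2.2 ∈ A ∧ q.2.2 ∈ B ∧ q.2.1 (q.2.1 q.2.2) ∈ B ∧
      1 / ((m : ℝ) + 1) ≤ gram (q.2.1 (q.2.1 u)) (q.2.1 (q.2.1 v))}
  have hc0 : Continuous fun q : NS E × (E →L[ℂ] E) × E => q.1 := continuous_fst
  have hc1 : Continuous fun q : NS E × (E →L[ℂ] E) × E => q.2.1 := by fun_prop
  have hc2 : Continuous fun q : NS E × (E →L[ℂ] E) × E => q.2.2 := by fun_prop
  have hc3 : Continuous fun q : NS E × (E →L[ℂ] E) × E => q.2.1 q.2.2 := hc1.clm_apply hc2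
  have hc4 : Continuous fun q : NS E × (E →L[ℂ] E) × E => q.2.1 (q.2.1 q.2.2) :=
    hc1.clm_apply hc3
  have hc5 : ∀ z : E, Continuous fun q : NS E × (E →L[ℂ] E) × E => q.2.1 z := fun z =>
    hc1.clm_apply continuous_const
  have hc6 : ∀ z : E, Continuous fun q : NS E × (E →L[ℂ] E) × E => q.2.1 (q.2.1 z) := fun z =>
    hc1.clm_apply (hc5 z)
  have hev : ∀ f : NS E × (E →L[ℂ] E) × E → E, Continuous f →
      Continuous fun q : NS E × (E →L[ℂ] E) × E => q.1.1 (f q) := fun f hf =>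
    continuous_eval.comp (hc0.prodMk hf)
  have hK : IsCompact K := by
    have hcomp : IsCompact ((Set.univ : Set (NS E)) ×ˢ
        ((Metric.closedBall (0 : E →L[ℂ] E) 2) ×ˢ (Metric.closedBall (0 : E) 1))) :=
      isCompact_univ.prod ((isCompact_closedBall _ _).prod (isCompact_closedBall _ _))
    refine hcomp.of_isClosed_subset ?_ ?_
    · have k1 : IsClosed {q : NS E × (E →L[ℂ] E) × E | ‖q.2.1‖ ≤ 2} :=
        isClosed_le hc1.norm continuous_const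
      have k2 : IsClosed {q : NS E × (E →L[ℂ] E) × E | ‖q.2.2‖ ≤ 1} :=
        isClosed_le hc2.norm continuous_const
      have k3 : IsClosed {q : NS E × (E →L[ℂ] E) × E | ∀ z, q.1.1 (q.2.1 z) ≤ q.1.1 z} := by
        rw [Set.ofPred_forall]
        exact isClosed_iInter fun z => isClosed_le (hev _ (hc5 z)) (hev _ continuous_const)
      have k4 : IsClosed {q : NS E × (E →L[ℂ] E) × E | q.1.1 q.2.2 = 1} :=
        isClosed_eq (hev _ hc2) continuous_const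
      have k5 : IsClosed {q : NS E × (E →L[ℂ] E) × E | q.1.1 (q.2.1 (q.2.1 q.2.2)) = 1} :=
        isClosed_eq (hev _ hc4) continuous_const
      have k6 : IsClosed {q : NS E × (E →L[ℂ] E) × E | q.2.1 q.2.2 ∈ A} := hA.preimage hc3
      have k7 : IsClosed {q : NS E × (E →L[ℂ] E) × E | q.2.2 ∈ B} := hB.preimage hc2
      have k8 : IsClosed {q : NS E × (E →L[ℂ] E) × E | q.2.1 (q.2.1 q.2.2) ∈ B} :=
        hB.preimage hc4
      have k9 : IsClosed {q : NS E × (E →L[ℂ] E) × E |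
          1 / ((m : ℝ) + 1) ≤ gram (q.2.1 (q.2.1 u)) (q.2.1 (q.2.1 v))} := by
        refine isClosed_le continuous_const ?_
        unfold gram
        have h1 := hc6 u
        have h2 := hc6 v
        exact ((h1.norm.pow 2).mul (h2.norm.pow 2)).sub ((h1.inner h2).norm.pow 2)
      exact k1.inter (k2.inter (k3.inter (k4.inter (k5.inter (k6.inter (k7.inter
        (k8.inter k9)))))))
    · rintro ⟨N, a, x⟩ ⟨h1, h2, _⟩
      exact ⟨Set.mem_univ _, mem_closedBall_zero_iff.mpr h1, mem_closedBall_zero_iff.mpr h2⟩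
  have e : Bad A B u v m = Prod.fst '' K := by
    ext N
    constructor
    · rintro ⟨a, ha, x, hx, h⟩
      exact ⟨⟨N, a, x⟩, ⟨ha, hx, h⟩, rfl⟩
    · rintro ⟨⟨N', a, x⟩, ⟨ha, hx, h⟩, rfl⟩
      exact ⟨a, ha, x, hx, h⟩
  rw [e]
  exact (hK.image continuous_fst).isClosed

lemma dense_Bad_compl {A B : Set E} (hA : IsClosed A) (hB : IsClosed B)
    (hAs : ∀ (c : ℂ) z, z ∈ A → c • z ∈ A) (hBs : ∀ (c : ℂ) z, z ∈ B → c • z ∈ B)
    (hAB : ∀ z ∈ A, ∀ w ∈ B, z ≠ 0 → w ≠ 0 → ∀ c : ℂ, w ≠ c • z) (u v : E) (m : ℕ) :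
    Dense (Bad A B u v m)ᶜ := by
  intro N
  have h : ∀ k : ℕ, ∃ N' : E → ℝ, IsN N' ∧ (∀ z, |N' z - N.1 z| ≤ 1 / ((k : ℝ) + 1) * ‖z‖) ∧
      NoBad N' A B := fun k =>
    special_dense N.2 hA hB hAs hBs hAB (by positivity)
      (by rw [div_le_one (by positivity)]; linarith [Nat.cast_nonneg (α := ℝ) k])
  choose N' h1 h2 h3 using h
  refine mem_closure_of_tendsto (f := fun k => (⟨N' k, h1 k⟩ : NS E)) (b := atTop) ?_ ?_
  · rw [tendsto_subtype_rng, tendsto_pi_nhds]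
    intro z
    rw [tendsto_iff_dist_tendsto_zero]
    refine squeeze_zero (fun _ => dist_nonneg) (fun k => ?_)
      (g := fun k : ℕ => 1 / ((k : ℝ) + 1) * ‖z‖) ?_
    · rw [Real.dist_eq]
      exact h2 k z
    · have := (tendsto_one_div_add_atTop_nhds_zero_nat (𝕜 := ℝ)).mul_const ‖z‖
      simpa using this
  · refine Eventually.of_forall fun k => ?_
    rintro ⟨a, _, x, _, g1, g2, g3, g4, g5, g6, g7⟩
    obtain ⟨α, β, hαβ, he⟩ := h3 k a x g1 g2 g3 g4 g5 g6 u v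
    rw [gram_eq_zero hαβ he] at g7
    have : (0 : ℝ) < 1 / ((m : ℝ) + 1) := by positivity
    linarith

/-- A generic norm has the property that `a ^ 2` has rank at most one whenever `a` is a
contraction, `a ^ 2` attains its norm one at `x`, and `a x` is not proportional to `x` or `a² x`. -/
theorem good_norm : ∃ N : E → ℝ, IsN N ∧ ∀ (a : E →L[ℂ] E) (x : E), (∀ z, N (a z) ≤ N z) →
    N x = 1 → N (a (a x)) = 1 → (∀ d : ℂ, x ≠ d • a x) → (∀ d : ℂ, a (a x) ≠ d • a x) →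
    ∀ u v : E, ∃ α β : ℂ, (α ≠ 0 ∨ β ≠ 0) ∧ α • a (a u) = β • a (a v) := by
  haveI : ProperSpace E := FiniteDimensional.proper ℂ E
  obtain ⟨D, hDc, hD⟩ := TopologicalSpace.exists_countable_dense E
  haveI : Countable D := hDc.to_subtype
  let ι := {q : D × ℚ × ℚ × D × D × ℕ // (q.2.2.1 : ℝ) < q.2.1}
  let F : ι → Set (NS E) := fun i =>
    Bad (coneA (i.1.1 : E) (i.1.2.1 : ℝ)) (coneB (i.1.1 : E) (i.1.2.2.1 : ℝ))
      (i.1.2.2.2.1 : E) (i.1.2.2.2.2.1 : E) i.1.2.2.2.2.2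
  have hd : Dense (⋂ i, (F i)ᶜ) := by
    refine dense_iInter_of_isOpen (fun i => ?_) (fun i => ?_)
    · exact (isClosed_Bad (isClosed_coneA _ _) (isClosed_coneB _ _) _ _ _).isOpen_compl
    · exact dense_Bad_compl (isClosed_coneA _ _) (isClosed_coneB _ _) smul_coneA smul_coneB
        (cone_sep i.2) _ _ _
  obtain ⟨N, hN⟩ := hd.nonempty
  rw [Set.mem_iInter] at hN
  refine ⟨N.1, N.2, ?_⟩
  intro a x ha hx haax hxa haa
  have hN0 := N.2.toIsSN.zero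
  have hx0 : x ≠ 0 := by
    rintro rfl
    rw [hN0] at hx
    norm_num at hx
  have hax0 : a x ≠ 0 := by
    intro h
    rw [h, map_zero, hN0] at haax
    norm_num at haax
  have haax0 : a (a x) ≠ 0 := by
    intro h
    rw [h, hN0] at haax
    norm_num at haax
  obtain ⟨c, hcD, r, r', hrr, hA, hB1, hB2⟩ := exists_cone hD hax0 hx0 haax0 hxa haa
  have hanorm : ‖a‖ ≤ 2 := by
    refine a.opNorm_le_bound (by norm_num) fun z => ?_
    exact (N.2.lower _).trans ((ha z).trans (N.2.upper z))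
  have hxnorm : ‖x‖ ≤ 1 := (N.2.lower x).trans hx.le
  have hgD : ∀ u ∈ D, ∀ v ∈ D, gram (a (a u)) (a (a v)) ≤ 0 := by
    intro u hu v hv
    by_contra hpos
    rw [not_le] at hpos
    obtain ⟨m, hm⟩ := exists_nat_one_div_lt hpos
    have := hN ⟨⟨⟨c, hcD⟩, r, r', ⟨u, hu⟩, ⟨v, hv⟩, m⟩, hrr⟩
    exact this ⟨a, hanorm, x, hxnorm, ha, hx, haax, hA, hB1, hB2, hm.le⟩
  have hg : ∀ u v : E, gram (a (a u)) (a (a v)) ≤ 0 := by
    have hc : Continuous fun q : E × E => gram (a (a q.1)) (a (a q.2)) := by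
      unfold gram
      fun_prop
    have hcl : IsClosed {q : E × E | gram (a (a q.1)) (a (a q.2)) ≤ 0} :=
      isClosed_le hc continuous_const
    have hDD : Dense (D ×ˢ D) := hD.prod hD
    have hsub : D ×ˢ D ⊆ {q : E × E | gram (a (a q.1)) (a (a q.2)) ≤ 0} := by
      rintro ⟨u, v⟩ ⟨hu, hv⟩
      exact hgD u hu v hv
    have := hcl.closure_subset_iff.mpr hsub
    rw [hDD.closure_eq] at this
    intro u v
    exact this (Set.mem_univ (u, v))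
  intro u v
  exact exists_of_gram_eq_zero (hg u v)

end Pool.Agent.Helper92.Crit
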