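import Mathlib
import Pool.Agent.Helper92.Crit.Generic

/-!
# Spaces of any dimension with critical exponent at most three
-/

namespace Pool.Agent.Helper92.Crit

open Filter Topology

/-- An eigenvector with eigenvalue of modulus one gives spectral radius one for a contraction. -/
lemma spectralRadius_eq_one {W : Type*} [NormedAddCommGroup W] [NormedSpace ℂ W]
    [CompleteSpace W] (a : W →L[ℂ] W) (ha : ‖a‖ ≤ 1) (μ : ℂ) (hμ : ‖μ‖ = 1) (y : W) (hy : y ≠ 0)
    (h : a y = μ • y) : spectralRadius ℂ a = 1 := by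
  haveI : Nontrivial W := ⟨⟨y, 0, hy⟩⟩
  apply le_antisymm
  · refine (spectrum.spectralRadius_le_nnnorm a).trans ?_
    have : ‖a‖₊ ≤ 1 := ha
    exact_mod_cast this
  · have hmem : μ ∈ spectrum ℂ a := by
      rw [spectrum.mem_iff]
      rintro ⟨u, hu⟩
      apply hy
      have h1 : (u : W →L[ℂ] W) y = 0 := by
        rw [hu]
        simp [h, Algebra.algebraMap_eq_smul_one]
      have h2 : ((u⁻¹ : (W →L[ℂ] W)ˣ) : W →L[ℂ] W) ((u : W →L[ℂ] W) y) = y := by
        rw [← ContinuousLinearMap.mul_apply, Units.inv_mul]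
        rfl
      rw [h1, map_zero] at h2
      exact h2.symm
    have h3 : (‖μ‖₊ : ENNReal) ≤ spectralRadius ℂ a :=
      le_iSup₂ (f := fun k (_ : k ∈ spectrum ℂ a) => (‖k‖₊ : ENNReal)) μ hmem
    have h4 : (‖μ‖₊ : ENNReal) = 1 := by
      have : ‖μ‖₊ = 1 := by
        ext
        exact hμ
      rw [this]
      rfl
    rw [h4] at h3
    exact h3

/-- The norm of an operator on a finite dimensional space is attained. -/
lemma norm_attained {W : Type*} [NormedAddCommGroup W] [NormedSpace ℂ W]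
    [FiniteDimensional ℂ W] (b : W →L[ℂ] W) (hb : ‖b‖ = 1) : ∃ x : W, ‖x‖ ≤ 1 ∧ 1 ≤ ‖b x‖ := by
  haveI : ProperSpace W := FiniteDimensional.proper ℂ W
  obtain ⟨x, hx, hmax⟩ := (isCompact_closedBall (0 : W) 1).exists_isMaxOn
    ⟨0, Metric.mem_closedBall_self zero_le_one⟩ (f := fun z => ‖b z‖) (by fun_prop)
  refine ⟨x, mem_closedBall_zero_iff.mp hx, ?_⟩
  rw [← hb]
  refine b.opNorm_le_bound (norm_nonneg _) fun z => ?_
  by_cases hz : z = 0
  · simp [hz]
  have hz' : 0 < ‖z‖ := norm_pos_iff.mpr hz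
  have h1 : ((‖z‖⁻¹ : ℝ) : ℂ) • z ∈ Metric.closedBall (0 : W) 1 := by
    rw [mem_closedBall_zero_iff, norm_smul, Complex.norm_real, norm_inv, norm_norm,
      inv_mul_cancel₀ hz'.ne']
  have h2 : ‖b (((‖z‖⁻¹ : ℝ) : ℂ) • z)‖ ≤ ‖b x‖ := hmax h1
  rw [map_smul, norm_smul, Complex.norm_real, norm_inv, norm_norm, inv_mul_le_iff₀ hz'] at h2
  linarith

theorem exists_space (n : ℕ) : ∃ (W : Type) (_ : NormedAddCommGroup W) (_ : NormedSpace ℂ W),
    FiniteDimensional ℂ W ∧ Module.finrank ℂ W = n ∧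
      ∀ a : W →L[ℂ] W, ‖a‖ ≤ 1 → ‖a ^ 3‖ = 1 → spectralRadius ℂ a = 1 := by
  obtain ⟨N, hN, hgood⟩ := good_norm (E := EuclideanSpace ℂ (Fin n))
  letI i1 := synGroup hN.toIsSN
  letI i2 := synSpace hN.toIsSN
  haveI hfd : FiniteDimensional ℂ (Syn (EuclideanSpace ℂ (Fin n))) :=
    inferInstanceAs (FiniteDimensional ℂ (EuclideanSpace ℂ (Fin n)))
  refine ⟨Syn (EuclideanSpace ℂ (Fin n)), i1, i2, hfd, ?_, ?_⟩
  · have : Module.finrank ℂ (EuclideanSpace ℂ (Fin n)) = n := by simp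
    exact this
  · intro a ha ha3
    haveI : CompleteSpace (Syn (EuclideanSpace ℂ (Fin n))) := FiniteDimensional.complete ℂ _
    obtain ⟨x, hx, hx3⟩ := norm_attained (a ^ 3) ha3
    have hstep : ∀ z, ‖a z‖ ≤ ‖z‖ := fun z => by
      have := a.le_opNorm z
      nlinarith [norm_nonneg z]
    have e3 : (a ^ 3) x = a (a (a x)) := rfl
    rw [e3] at hx3
    have s1 := hstep x
    have s2 := hstep (a x)
    have s3 := hstep (a (a x))
    have n0 : ‖x‖ = 1 := by linarith
    have n1 : ‖a x‖ = 1 := by linarith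
    have n2 : ‖a (a x)‖ = 1 := by linarith
    have n3 : ‖a (a (a x))‖ = 1 := by linarith
    have nz : ∀ y : Syn (EuclideanSpace ℂ (Fin n)), ‖y‖ = 1 → y ≠ 0 := by
      rintro y hy rfl
      rw [norm_zero] at hy
      exact zero_ne_one hy
    -- the eigenvector
    have hev : ∃ (μ : ℂ) (y : Syn (EuclideanSpace ℂ (Fin n))), ‖y‖ = 1 ∧ ‖a y‖ = 1 ∧
        a y = μ • y := by
      by_cases c1 : ∃ d : ℂ, x = d • a x
      · obtain ⟨d, hd⟩ := c1
        have hd0 : d ≠ 0 := by
          rintro rfl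
          rw [zero_smul] at hd
          exact nz x n0 hd
        refine ⟨d⁻¹, x, n0, n1, ?_⟩
        rw [eq_inv_smul_iff₀ hd0]
        exact hd.symm
      by_cases c2 : ∃ d : ℂ, a (a x) = d • a x
      · obtain ⟨d, hd⟩ := c2
        exact ⟨d, a x, n1, n2, hd⟩
      push Not at c1 c2
      let a' : EuclideanSpace ℂ (Fin n) →ₗ[ℂ] EuclideanSpace ℂ (Fin n) :=
        { toFun := fun z => a (toSyn z)
          map_add' := fun p q => a.map_add (toSyn p) (toSyn q)
          map_smul' := fun c p => a.map_smul c (toSyn p) }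
      obtain ⟨α, β, hαβ, he⟩ := hgood (LinearMap.toContinuousLinearMap a') x
        (fun z => hstep (toSyn z)) n0 n2 c1 c2 x (a x)
      have he : α • a (a x) = β • a (a (a x)) := he
      have hβ : β ≠ 0 := by
        rintro rfl
        rw [zero_smul, smul_eq_zero] at he
        rcases he with he | he
        · rcases hαβ with h | h
          · exact h he
          · exact h rfl
        · exact nz _ n2 he
      refine ⟨β⁻¹ * α, a (a x), n2, n3, ?_⟩
      rw [← smul_smul, he, smul_smul, inv_mul_cancel₀ hβ, one_smul]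
    obtain ⟨μ, y, hy1, hy2, hy3⟩ := hev
    refine spectralRadius_eq_one a ha μ ?_ y (nz y hy1) hy3
    rw [hy3, norm_smul, hy1, mul_one] at hy2
    exact hy2

/-- In dimension at least two there is an operator of norm one and square zero. -/
theorem exists_square_zero {W : Type*} [NormedAddCommGroup W] [NormedSpace ℂ W]
    [FiniteDimensional ℂ W] (h : 2 ≤ Module.finrank ℂ W) :
    ∃ a : W →L[ℂ] W, ‖a‖ = 1 ∧ spectralRadius ℂ a = 0 := by
  haveI : CompleteSpace W := FiniteDimensional.complete ℂ _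
  haveI : Nontrivial W := Module.nontrivial_of_finrank_pos (R := ℂ) (by omega)
  obtain ⟨y, hy⟩ := exists_ne (0 : W)
  have hlt : Submodule.span ℂ {y} < ⊤ := by
    rw [lt_top_iff_ne_top]
    intro he
    have h1 : Module.finrank ℂ (Submodule.span ℂ {y}) = 1 := finrank_span_singleton hy
    rw [he, finrank_top] at h1
    omega
  obtain ⟨f, hf0, hf⟩ := Submodule.exists_le_ker_of_lt_top _ hlt
  have hfy : f y = 0 := hf (Submodule.mem_span_singleton_self y)
  let F : W →L[ℂ] ℂ := LinearMap.toContinuousLinearMap f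
  have hF0 : F ≠ 0 := by
    intro h0
    apply hf0
    ext z
    exact DFunLike.congr_fun h0 z
  have hFn : 0 < ‖F‖ := norm_pos_iff.mpr hF0
  have hyn : 0 < ‖y‖ := norm_pos_iff.mpr hy
  let b : W →L[ℂ] W := (((‖F‖ * ‖y‖)⁻¹ : ℝ) : ℂ) • F.smulRight y
  have hb2 : b ^ 2 = 0 := by
    ext z
    show (((‖F‖ * ‖y‖)⁻¹ : ℝ) : ℂ) • (f ((((‖F‖ * ‖y‖)⁻¹ : ℝ) : ℂ) • (f z • y)) • y) = 0
    rw [map_smul, map_smul, hfy]
    simp
  refine ⟨b, ?_, ?_⟩
  · show ‖(((‖F‖ * ‖y‖)⁻¹ : ℝ) : ℂ) • F.smulRight y‖ = 1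
    rw [norm_smul, Complex.norm_real, ContinuousLinearMap.norm_smulRight_apply, norm_inv,
      Real.norm_of_nonneg (by positivity)]
    field_simp
  · have h1 := spectrum.spectralRadius_le_pow_nnnorm_pow_one_div ℂ b 1
    rw [show 1 + 1 = 2 from rfl, hb2] at h1
    simpa using h1

end Pool.Agent.Helper92.Crit
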